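import Pool.Agent.Q207.HG.Stm

/-!
# Project HG: the bilinear concomitant of the hypergeometric equations
-/

set_option autoImplicit false

open Filter Topology Matrix

namespace Pool.Agent.Q195.HG

open Q207.HM Q207.HG
open Pool.Agent.Y119.HY (Am Am_mul mul_Am Jm Jm_rel Bm cm cm_apply cm_mul cm_add cm_zero cm_transpose Hc Ac_nil Sol Hf Hf_an Hf_zero
  Lens E Yf Yf_ode E_exp E_mul_neg E_neg E_zero mem_Lens real_mem_Lens slit_Lens const_Lens Gm HD PA Ep Ep_eval map_mul_eval map_C_eval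
  Jc_rel E_isom)

variable {n : ℕ}

namespace Cnc

section pair

variable {S0 S1 N0 N1 N2 : Matrix (Fin n) (Fin n) ℂ} {H K : ℕ → Matrix (Fin n) (Fin n) ℂ}

/-- **the pairing is constant** -/
theorem pair (h0 : N0 ^ n = 0) (c1 : N0ᵀ * S0 + S0 * N0 = 0)
    (c2 : S1 + (N0ᵀ * S1 + S1 * N0) + (N1ᵀ * S0 + S0 * N2) = 0) (c3 : N1ᵀ * (S0 + S1) + (S0 + S1) * N2 = 0)
    (hH : Sol N0 N1 H) (hK : Sol N0 N2 K) {z : ℂ} (hz : z ∈ Lens) : (Yf N0 H z)ᵀ * (S0 + z • S1) * Yf N0 K z = S0 := by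
  have hhalf : ((1 / 2 : ℝ) : ℂ) ∈ Lens := real_mem_Lens (by norm_num) (by norm_num)
  set T := (Yf N0 H ((1 / 2 : ℝ) : ℂ))ᵀ * (S0 + ((1 / 2 : ℝ) : ℂ) • S1) * Yf N0 K ((1 / 2 : ℝ) : ℂ) with hT
  have hconst : ∀ w ∈ Lens, (Yf N0 H w)ᵀ * (S0 + w • S1) * Yf N0 K w = T := by
    intro w hw
    refine const_Lens (F := fun w => (Yf N0 H w)ᵀ * (S0 + w • S1) * Yf N0 K w) (fun x hx => ?_) hw hhalf
    have h1 := Yf_ode hH h0 (mem_Lens.1 hx).1 (slit_Lens hx)
    have h2 := Yf_ode hK h0 (mem_Lens.1 hx).1 (slit_Lens hx)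
    have h3 : HD (fun w => S0 + w • S1) S1 x := by
      intro i j
      have := ((hasDerivAt_id x).mul_const (S1 i j)).const_add (S0 i j)
      simpa using this
    refine ((h1.transpose.mul h3).mul h2).congr ?_
    have hx0 : x ≠ 0 := Complex.slitPlane_ne_zero (slit_Lens hx)
    have hx1 : 1 - x ≠ 0 := by
      intro h
      have e : x = 1 := by linear_combination -h
      have := (mem_Lens.1 hx).1
      rw [e, norm_one] at this
      exact lt_irrefl _ this
    have key : (Gm N0 N1 x)ᵀ * (S0 + x • S1) + S1 + (S0 + x • S1) * Gm N0 N2 x = 0 := by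
      unfold Gm
      have e1 : ((1 / x) • N0 + (1 / (1 - x)) • N1)ᵀ * (S0 + x • S1) + S1 + (S0 + x • S1) * ((1 / x) • N0 + (1 / (1 - x)) • N2) =
          (1 / x) • (N0ᵀ * S0 + S0 * N0) + (x * (1 / x)) • (N0ᵀ * S1 + S1 * N0) + S1 +
            (1 / (1 - x) * (1 - x)) • (N1ᵀ * S0 + S0 * N2) +
            (x * (1 / (1 - x))) • (N1ᵀ * (S0 + S1) + (S0 + S1) * N2) := by
        simp only [transpose_add, transpose_smul, Matrix.add_mul, Matrix.mul_add, Matrix.smul_mul, Matrix.mul_smul, smul_add,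
          smul_smul]
        module
      have e2 : x * (1 / x) = 1 := by field_simp
      have e3 : 1 / (1 - x) * (1 - x) = 1 := by field_simp
      rw [e1, c1, c3, e2, e3, smul_zero, smul_zero, one_smul, one_smul, zero_add, add_zero]
      rw [← c2]
      abel
    calc _ = (Yf N0 H x)ᵀ * ((Gm N0 N1 x)ᵀ * (S0 + x • S1) + S1 + (S0 + x • S1) * Gm N0 N2 x) * Yf N0 K x := by
          rw [transpose_mul]
          noncomm_ring
      _ = 0 := by rw [key, Matrix.mul_zero, Matrix.zero_mul]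
  rw [hconst z hz]
  -- the holomorphic part
  have hHan : ∀ i j, AnalyticOnNhd ℂ (fun z => ((Hf H z)ᵀ * (S0 + z • S1) * Hf K z) i j) (Metric.ball 0 1) := by
    intro i j
    simp only [Matrix.mul_apply, Matrix.transpose_apply]
    refine Finset.analyticOnNhd_fun_sum _ fun l _ => AnalyticOnNhd.mul ?_ (Hf_an hK h0 l j)
    refine Finset.analyticOnNhd_fun_sum _ fun k _ => ?_
    refine (Hf_an hH h0 k i).mul ?_
    have : (fun z : ℂ => (S0 + z • S1) k l) = fun z => S0 k l + z * S1 k l := by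
      funext z
      simp
    rw [this]
    exact analyticOnNhd_const.add (analyticOnNhd_id.mul analyticOnNhd_const)
  have hlog : ∀ i j : Fin n, ∀ w ∈ Metric.ball (0 : ℂ) 1, Polynomial.C (((Hf H w)ᵀ * (S0 + w • S1) * Hf K w) i j) +
      -(((Ep (-N0))ᵀ * T.map Polynomial.C * Ep (-N0)) i j) = 0 := by
    intro i j
    refine PA.log_zero (f := fun w => Polynomial.C (((Hf H w)ᵀ * (S0 + w • S1) * Hf K w) i j) +
      -(((Ep (-N0))ᵀ * T.map Polynomial.C * Ep (-N0)) i j)) ((PA.ofFun (hHan i j)).add (PA.const _)) fun x hx hx1 => ?_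
    have h1 := hconst x (real_mem_Lens hx hx1)
    have h2 : ((Ep (-N0))ᵀ * T.map Polynomial.C * Ep (-N0)).map (Polynomial.eval ((Real.log x : ℝ) : ℂ)) =
        (Hf H x)ᵀ * (S0 + (x : ℂ) • S1) * Hf K x := by
      rw [map_mul_eval, map_mul_eval, Matrix.transpose_map, map_C_eval, Ep_eval, E_neg, ← h1]
      unfold Yf
      rw [← Complex.ofReal_log hx.le, transpose_mul]
      set L : ℂ := ((Real.log x : ℝ) : ℂ)
      have h3 : E N0 L * E N0 (-L) = 1 := E_mul_neg h0 L
      have h4 : (E N0 (-L))ᵀ * (E N0 L)ᵀ = 1 := by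
        rw [← transpose_mul, h3, transpose_one]
      calc (E N0 (-L))ᵀ * ((E N0 L)ᵀ * (Hf H x)ᵀ * (S0 + (x : ℂ) • S1) * (Hf K x * E N0 L)) * E N0 (-L)
          = ((E N0 (-L))ᵀ * (E N0 L)ᵀ) * (Hf H x)ᵀ * (S0 + (x : ℂ) • S1) * Hf K x * (E N0 L * E N0 (-L)) := by
            simp only [Matrix.mul_assoc]
        _ = _ := by rw [h3, h4, one_mul, mul_one]
    rw [Polynomial.eval_add, Polynomial.eval_neg, Polynomial.eval_C, ← h2]
    simp only [Matrix.map_apply]
    ring
  ext i j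
  have h5 := congrArg (Polynomial.eval 0) (hlog i j 0 (Metric.mem_ball_self one_pos))
  rw [Polynomial.eval_add, Polynomial.eval_neg, Polynomial.eval_C, Hf_zero hH, Hf_zero hK, transpose_one, one_mul, mul_one,
    Polynomial.eval_zero, zero_smul, add_zero] at h5
  have h6 : ((Ep (-N0))ᵀ * T.map Polynomial.C * Ep (-N0)).map (Polynomial.eval 0) = T := by
    rw [map_mul_eval, map_mul_eval, Matrix.transpose_map, map_C_eval, Ep_eval, E_zero (by
      rw [neg_pow, h0, mul_zero]), transpose_one, one_mul, mul_one]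
  have h7 := congrFun (congrFun h6 i) j
  rw [Matrix.map_apply] at h7
  rw [h7] at h5
  linear_combination -h5

end pair

/-! ### The matrices -/

theorem AmT_mul (M : Matrix (Fin n) (Fin n) ℂ) (a b : Fin n) :
    ((cm (Am n))ᵀ * M) a b = if h : 1 ≤ (a : ℕ) then M ⟨(a : ℕ) - 1, by omega⟩ b else 0 := by
  rw [Matrix.mul_apply]
  have e : ∀ k : Fin n, (cm (Am n))ᵀ a k = if (a : ℕ) = k + 1 then 1 else 0 := by
    intro k
    rw [Matrix.transpose_apply, cm_apply]
    unfold Am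
    rw [Matrix.of_apply]
    split_ifs <;> simp
  split_ifs with h
  · rw [Finset.sum_eq_single (⟨(a : ℕ) - 1, by omega⟩ : Fin n)]
    · rw [e, if_pos (by simp only; omega), one_mul]
    · intro k _ hk
      rw [e, if_neg, zero_mul]
      intro h1
      apply hk
      apply Fin.ext
      simp only
      omega
    · intro h1
      exact absurd (Finset.mem_univ _) h1
  · refine Finset.sum_eq_zero fun k _ => ?_
    rw [e, if_neg (by omega), zero_mul]

theorem mul_AmC (M : Matrix (Fin n) (Fin n) ℂ) (a b : Fin n) :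
    (M * cm (Am n)) a b = if h : 1 ≤ (b : ℕ) then M a ⟨(b : ℕ) - 1, by omega⟩ else 0 := by
  rw [Matrix.mul_apply]
  have e : ∀ k : Fin n, cm (Am n) k b = if (b : ℕ) = k + 1 then 1 else 0 := by
    intro k
    rw [cm_apply]
    unfold Am
    rw [Matrix.of_apply]
    split_ifs <;> simp
  split_ifs with h
  · rw [Finset.sum_eq_single (⟨(b : ℕ) - 1, by omega⟩ : Fin n)]
    · rw [e, if_pos (by simp only; omega), mul_one]
    · intro k _ hk
      rw [e, if_neg, mul_zero]
      intro h1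
      apply hk
      apply Fin.ext
      simp only
      omega
    · intro h1
      exact absurd (Finset.mem_univ _) h1
  · refine Finset.sum_eq_zero fun k _ => ?_
    rw [e, if_neg (by omega), mul_zero]

theorem BmT_mul (Q : Polynomial ℚ) (M : Matrix (Fin n) (Fin n) ℂ) (a b : Fin n) :
    ((cm (Bm n Q))ᵀ * M) a b = ((Q.coeff a : ℚ) : ℂ) * M ⟨n - 1, by have := a.2; omega⟩ b := by
  have hn := a.2
  rw [Matrix.mul_apply, Finset.sum_eq_single (⟨n - 1, by omega⟩ : Fin n)]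
  · rw [Matrix.transpose_apply, cm_apply]
    unfold Bm
    rw [Matrix.of_apply, if_pos (by simp only; omega)]
  · intro k _ hk
    rw [Matrix.transpose_apply, cm_apply]
    unfold Bm
    rw [Matrix.of_apply, if_neg, Rat.cast_zero, zero_mul]
    intro h1
    apply hk
    apply Fin.ext
    simp only
    omega
  · intro h1
    exact absurd (Finset.mem_univ _) h1

theorem mul_BmC (Q : Polynomial ℚ) (M : Matrix (Fin n) (Fin n) ℂ) (a b : Fin n) :
    (M * cm (Bm n Q)) a b = M a ⟨n - 1, by have := a.2; omega⟩ * ((Q.coeff b : ℚ) : ℂ) := by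
  have hn := a.2
  rw [Matrix.mul_apply, Finset.sum_eq_single (⟨n - 1, by omega⟩ : Fin n)]
  · rw [cm_apply]
    unfold Bm
    rw [Matrix.of_apply, if_pos (by simp only; omega)]
  · intro k _ hk
    rw [cm_apply]
    unfold Bm
    rw [Matrix.of_apply, if_neg, Rat.cast_zero, mul_zero]
    intro h1
    apply hk
    apply Fin.ext
    simp only
    omega
  · intro h1
    exact absurd (Finset.mem_univ _) h1

theorem K0_apply (a b : Fin n) : K0 n a b = if (a : ℕ) + b + 1 = n then (-1) ^ (b : ℕ) else 0 := rfl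

/-- the entries of `K1` -/
noncomputable def k1 (n : ℕ) (Q : Polynomial ℚ) (a b : ℕ) : ℂ :=
  -∑ l ∈ Finset.range n, ((-1) ^ l * (l.choose b : ℂ) * (if a + l + 1 ≤ n then ((Q.coeff (a + l + 1) : ℚ) : ℂ) else 0))

/-- the entries of `K0` -/
noncomputable def k0 (n a b : ℕ) : ℂ := if a + b + 1 = n then (-1) ^ b else 0

theorem K0_val (a b : Fin n) : K0 n a b = k0 n a b := rfl

theorem K1_val (Q : Polynomial ℚ) (a b : Fin n) : K1 n Q a b = k1 n Q a b := rfl

theorem rel1 : (cm (Am n))ᵀ * K0 n + K0 n * cm (Am n) = 0 := by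
  ext a b
  rw [Matrix.add_apply, AmT_mul, mul_AmC, Matrix.zero_apply]
  have ha := a.2
  have hb := b.2
  by_cases h1 : 1 ≤ (a : ℕ)
  · by_cases h2 : 1 ≤ (b : ℕ)
    · rw [dif_pos h1, dif_pos h2, K0_val, K0_val]
      unfold k0
      simp only
      by_cases h3 : (a : ℕ) + b = n
      · rw [if_pos (by omega), if_pos (by omega)]
        obtain ⟨m, hm⟩ : ∃ m, (b : ℕ) = m + 1 := ⟨(b : ℕ) - 1, by omega⟩
        rw [hm, Nat.add_sub_cancel, pow_succ]
        ring
      · rw [if_neg (by omega), if_neg (by omega), add_zero]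
    · rw [dif_pos h1, dif_neg h2, K0_val]
      unfold k0
      rw [if_neg (by simp only; omega), add_zero]
  · by_cases h2 : 1 ≤ (b : ℕ)
    · rw [dif_neg h1, dif_pos h2, K0_val]
      unfold k0
      rw [if_neg (by simp only; omega), add_zero]
    · rw [dif_neg h1, dif_neg h2, add_zero]

section Q

variable {Q Q' : Polynomial ℚ}

theorem k1_succ (N a b : ℕ) (ha : a + 1 ≤ N) :
    k1 (N + 1) Q a b = (∑ l ∈ Finset.range N, ((-1) ^ l * ((l + 1).choose b : ℂ) *
      (if a + 1 + l + 1 ≤ N + 1 then ((Q.coeff (a + 1 + l + 1) : ℚ) : ℂ) else 0))) -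
        (Nat.choose 0 b : ℂ) * ((Q.coeff (a + 1) : ℚ) : ℂ) := by
  unfold k1
  rw [Finset.sum_range_succ', neg_add, ← Finset.sum_neg_distrib]
  have e1 : ∀ l ∈ Finset.range N, -((-1 : ℂ) ^ (l + 1) * (((l + 1).choose b : ℕ) : ℂ) *
      (if a + (l + 1) + 1 ≤ N + 1 then ((Q.coeff (a + (l + 1) + 1) : ℚ) : ℂ) else 0)) =
      ((-1) ^ l * ((l + 1).choose b : ℂ) * (if a + 1 + l + 1 ≤ N + 1 then ((Q.coeff (a + 1 + l + 1) : ℚ) : ℂ) else 0)) := by
    intro l _
    have : a + (l + 1) + 1 = a + 1 + l + 1 := by ring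
    rw [this, pow_succ]
    ring
  rw [Finset.sum_congr rfl e1, if_pos (by omega), pow_zero, one_mul, add_zero]
  ring

theorem k1_cut (N a b : ℕ) (ha : 1 ≤ a) :
    k1 (N + 1) Q a b = -∑ l ∈ Finset.range N, ((-1) ^ l * (l.choose b : ℂ) *
      (if a + l + 1 ≤ N + 1 then ((Q.coeff (a + l + 1) : ℚ) : ℂ) else 0)) := by
  unfold k1
  rw [Finset.sum_range_succ, if_neg (by omega), mul_zero, add_zero]

theorem k1_zero (n b : ℕ) : k1 n Q 0 b = -∑ l ∈ Finset.range n, ((-1) ^ l * (l.choose b : ℂ) * ((Q.coeff (l + 1) : ℚ) : ℂ)) := by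
  unfold k1
  congr 1
  refine Finset.sum_congr rfl fun l hl => ?_
  rw [Finset.mem_range] at hl
  rw [if_pos (by omega), zero_add]

/-- Pascal -/
theorem k1_pas (N a b : ℕ) (ha : a + 1 ≤ N) :
    k1 (N + 1) Q (a + 1) (b + 1) + k1 (N + 1) Q (a + 1) b + k1 (N + 1) Q a (b + 1) = 0 := by
  rw [k1_cut N (a + 1) (b + 1) (by omega), k1_cut N (a + 1) b (by omega), k1_succ N a (b + 1) ha]
  have e0 : (Nat.choose 0 (b + 1) : ℂ) = 0 := by simp
  rw [e0, zero_mul, sub_zero, ← neg_add, ← Finset.sum_add_distrib, neg_add_eq_zero]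
  refine Finset.sum_congr rfl fun l _ => ?_
  rw [Nat.choose_succ_succ]
  push_cast
  ring

theorem k1_pas0 (N a : ℕ) (ha : a + 1 ≤ N) :
    k1 (N + 1) Q (a + 1) 0 + k1 (N + 1) Q a 0 + ((Q.coeff (a + 1) : ℚ) : ℂ) = 0 := by
  rw [k1_cut N (a + 1) 0 (by omega), k1_succ N a 0 ha]
  simp
  ring

theorem k1_fst (N b : ℕ) (hQ' : ((Q'.coeff (b + 1) : ℚ) : ℂ) = (-1) ^ (N + 1) * ∑ l ∈ Finset.range (N + 2),
    ((-1) ^ l * (l.choose (b + 1) : ℂ) * ((Q.coeff l : ℚ) : ℂ))) :
    k1 (N + 1) Q 0 (b + 1) + k1 (N + 1) Q 0 b + (-1) ^ N * ((Q'.coeff (b + 1) : ℚ) : ℂ) = 0 := by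
  rw [hQ', Finset.sum_range_succ', k1_zero, k1_zero]
  have e0 : (Nat.choose 0 (b + 1) : ℂ) = 0 := by simp
  have e1 : ((-1 : ℂ) ^ N) * (-1) ^ N = 1 := by rw [← pow_add, Even.neg_one_pow ⟨_, rfl⟩]
  rw [e0, mul_zero, zero_mul, add_zero, pow_succ, ← mul_assoc, ← mul_assoc, e1, one_mul, ← neg_add, ← Finset.sum_add_distrib,
    neg_one_mul, ← neg_add, neg_eq_zero, ← Finset.sum_add_distrib]
  refine Finset.sum_eq_zero fun l _ => ?_
  rw [Nat.choose_succ_succ]
  push_cast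
  ring

theorem k1_fst0 (N : ℕ) (hQ' : ((Q'.coeff 0 : ℚ) : ℂ) = (-1) ^ (N + 1) * ∑ l ∈ Finset.range (N + 2),
    ((-1) ^ l * (l.choose 0 : ℂ) * ((Q.coeff l : ℚ) : ℂ))) :
    k1 (N + 1) Q 0 0 + ((Q.coeff 0 : ℚ) : ℂ) + (-1) ^ N * ((Q'.coeff 0 : ℚ) : ℂ) = 0 := by
  rw [hQ', Finset.sum_range_succ', k1_zero]
  have e1 : ((-1 : ℂ) ^ N) * (-1) ^ N = 1 := by rw [← pow_add, Even.neg_one_pow ⟨_, rfl⟩]
  rw [pow_succ, ← mul_assoc, ← mul_assoc, e1, one_mul, pow_zero, Nat.choose_zero_right, neg_one_mul, neg_add]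
  have e2 : -∑ k ∈ Finset.range (N + 1), (-1 : ℂ) ^ (k + 1) * (((k + 1).choose 0 : ℕ) : ℂ) * ((Q.coeff (k + 1) : ℚ) : ℂ) =
      ∑ l ∈ Finset.range (N + 1), ((-1) ^ l * (l.choose 0 : ℂ) * ((Q.coeff (l + 1) : ℚ) : ℂ)) := by
    rw [← Finset.sum_neg_distrib]
    refine Finset.sum_congr rfl fun l _ => ?_
    rw [pow_succ, Nat.choose_zero_right, Nat.choose_zero_right]
    ring
  rw [e2]
  push_cast
  ring

theorem k1_last (N b : ℕ) (hQ : Q.coeff (N + 1) = 1) : k1 (N + 1) Q N b + k0 (N + 1) N b = 0 := by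
  unfold k1 k0
  rw [Finset.sum_range_succ']
  have e1 : ∑ k ∈ Finset.range N, (-1 : ℂ) ^ (k + 1) * (((k + 1).choose b : ℕ) : ℂ) *
      (if N + (k + 1) + 1 ≤ N + 1 then ((Q.coeff (N + (k + 1) + 1) : ℚ) : ℂ) else 0) = 0 := by
    refine Finset.sum_eq_zero fun l _ => ?_
    rw [if_neg (by omega), mul_zero]
  rw [e1, zero_add, if_pos (by omega), add_zero, hQ, pow_zero, Rat.cast_one, mul_one, one_mul]
  rcases b with _ | b
  · rw [if_pos (by ring)]
    simp
  · rw [if_neg (by omega)]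
    simp

theorem k1_col (N a : ℕ) (ha : a ≤ N) (hQ : Q.coeff (N + 1) = 1) : k1 (N + 1) Q a N + k0 (N + 1) a N = 0 := by
  unfold k1 k0
  rw [Finset.sum_range_succ]
  have e1 : ∑ l ∈ Finset.range N, (-1 : ℂ) ^ l * ((l.choose N : ℕ) : ℂ) *
      (if a + l + 1 ≤ N + 1 then ((Q.coeff (a + l + 1) : ℚ) : ℂ) else 0) = 0 := by
    refine Finset.sum_eq_zero fun l hl => ?_
    rw [Finset.mem_range] at hl
    rw [Nat.choose_eq_zero_of_lt hl]
    simp
  rw [e1, zero_add, Nat.choose_self]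
  rcases a with _ | a
  · rw [if_pos (by omega), if_pos (by ring), zero_add, hQ]
    simp
  · rw [if_neg (by omega), if_neg (by omega)]
    simp

theorem co (n : ℕ) (α : Fin n → ℚ) (b : ℕ) :
    (∏ i, (Polynomial.X + Polynomial.C (1 - α i))).coeff b = (-1) ^ n * ∑ l ∈ Finset.range (n + 1),
      ((-1) ^ l * (l.choose b : ℚ) * (∏ i, (Polynomial.X + Polynomial.C (α i))).coeff l) := by
  have hd : (∏ i, (Polynomial.X + Polynomial.C (α i))).natDegree < n + 1 := by
    rw [Polynomial.natDegree_prod_of_monic _ _ fun i _ => Polynomial.monic_X_add_C _]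
    simp
  set Q := ∏ i, (Polynomial.X + Polynomial.C (α i)) with hQ
  have h1 : (∏ i, (Polynomial.X + Polynomial.C (1 - α i))) =
      Polynomial.C ((-1) ^ n) * Q.comp (-(Polynomial.X + 1)) := by
    rw [hQ, Polynomial.prod_comp, map_pow]
    have h1 : (Polynomial.C (-1 : ℚ)) ^ n = ∏ _i : Fin n, Polynomial.C (-1 : ℚ) := by
      rw [Finset.prod_const, Finset.card_univ, Fintype.card_fin]
    rw [h1, ← Finset.prod_mul_distrib]
    refine Finset.prod_congr rfl fun i _ => ?_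
    simp only [Polynomial.add_comp, Polynomial.X_comp, Polynomial.C_comp, map_neg, map_one, map_sub]
    ring
  rw [h1, Polynomial.coeff_C_mul]
  congr 1
  rw [Polynomial.comp, Polynomial.eval₂_eq_sum_range' _ hd, Polynomial.finsetSum_coeff]
  refine Finset.sum_congr rfl fun l _ => ?_
  rw [Polynomial.coeff_C_mul, neg_pow, ← Polynomial.C_1, ← Polynomial.C_neg, ← Polynomial.C_pow, Polynomial.coeff_C_mul,
    Polynomial.C_1, Polynomial.coeff_X_add_one_pow]
  ring
theorem rel2 (N : ℕ) (hQ' : ∀ b, ((Q'.coeff b : ℚ) : ℂ) = (-1) ^ (N + 1) * ∑ l ∈ Finset.range (N + 2),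
    ((-1) ^ l * (l.choose b : ℂ) * ((Q.coeff l : ℚ) : ℂ))) :
    K1 (N + 1) Q + ((cm (Am (N + 1)))ᵀ * K1 (N + 1) Q + K1 (N + 1) Q * cm (Am (N + 1))) +
      ((cm (Bm (N + 1) Q))ᵀ * K0 (N + 1) + K0 (N + 1) * cm (Bm (N + 1) Q')) = 0 := by
  ext a b
  rw [Matrix.add_apply, Matrix.add_apply, Matrix.add_apply, Matrix.add_apply, AmT_mul, mul_AmC, BmT_mul, mul_BmC,
    Matrix.zero_apply]
  obtain ⟨a, ha⟩ := a
  obtain ⟨b, hb⟩ := b
  simp only [K0_val, K1_val, Nat.add_sub_cancel]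
  rcases a with _ | a
  · rcases b with _ | b
    · rw [dif_neg (by omega)]
      have h1 := k1_fst0 (Q := Q) (Q' := Q') N (hQ' 0)
      have e1 : k0 (N + 1) N 0 = 1 := by
        unfold k0
        rw [if_pos (by ring), pow_zero]
      have e2 : k0 (N + 1) 0 N = (-1) ^ N := by
        unfold k0
        rw [if_pos (by ring)]
      rw [e1, e2]
      linear_combination h1
    · rw [dif_neg (by omega), dif_pos (by omega)]
      have h1 := k1_fst (Q := Q) (Q' := Q') N b (hQ' (b + 1))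
      have e1 : k0 (N + 1) N (b + 1) = 0 := by
        unfold k0
        rw [if_neg (by omega)]
      have e2 : k0 (N + 1) 0 N = (-1) ^ N := by
        unfold k0
        rw [if_pos (by ring)]
      rw [e1, e2]
      simp only [Nat.add_sub_cancel]
      linear_combination h1
  · rcases b with _ | b
    · rw [dif_pos (by omega), dif_neg (by omega)]
      have h1 := k1_pas0 (Q := Q) N a (by omega)
      have e1 : k0 (N + 1) N 0 = 1 := by
        unfold k0
        rw [if_pos (by ring), pow_zero]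
      have e2 : k0 (N + 1) (a + 1) N = 0 := by
        unfold k0
        rw [if_neg (by omega)]
      rw [e1, e2]
      simp only [Nat.add_sub_cancel]
      linear_combination h1
    · rw [dif_pos (by omega), dif_pos (by omega)]
      have h1 := k1_pas (Q := Q) N a b (by omega)
      have e1 : k0 (N + 1) N (b + 1) = 0 := by
        unfold k0
        rw [if_neg (by omega)]
      have e2 : k0 (N + 1) (a + 1) N = 0 := by
        unfold k0
        rw [if_neg (by omega)]
      rw [e1, e2]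
      simp only [Nat.add_sub_cancel]
      linear_combination h1

theorem rel3 (N : ℕ) (hQ : Q.coeff (N + 1) = 1) :
    (cm (Bm (N + 1) Q))ᵀ * (K0 (N + 1) + K1 (N + 1) Q) + (K0 (N + 1) + K1 (N + 1) Q) * cm (Bm (N + 1) Q') = 0 := by
  ext a b
  rw [Matrix.add_apply, BmT_mul, mul_BmC, Matrix.add_apply, Matrix.add_apply, Matrix.zero_apply]
  have ha := a.2
  simp only [K0_val, K1_val, Nat.add_sub_cancel]
  have h1 := k1_last (Q := Q) N b hQ
  have h2 := k1_col (Q := Q) N a (by omega) hQ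
  linear_combination ((Q.coeff a : ℚ) : ℂ) * h1 + ((Q'.coeff b : ℚ) : ℂ) * h2

end Q

end Cnc

open Cnc in
theorem conc : S_Conc := by
  intro n α hn hα x hx hx1
  obtain ⟨N, rfl⟩ : ∃ N, n = N + 1 := ⟨n - 1, by omega⟩
  have hNI : ∀ i, NI (α i) := by
    intro i l h0
    obtain ⟨h1, h2⟩ := hα i
    rw [← h0] at h1 h2
    have h3 : 0 < l := by exact_mod_cast h1
    have h4 : l < 1 := by exact_mod_cast h2
    omega
  have hNI' : ∀ i, NI (1 - α i) := by
    intro i l h0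
    obtain ⟨h1, h2⟩ := hα i
    have h3 : (0 : ℚ) < l := by rw [h0]; linarith
    have h4 : (l : ℚ) < 1 := by rw [h0]; linarith
    have h5 : 0 < l := by exact_mod_cast h3
    have h6 : l < 1 := by exact_mod_cast h4
    omega
  have g1 := QG_QA hn hNI
  have g2 := QG_QA hn hNI'
  have hQ : (QA α).coeff (N + 1) = 1 := by
    have h1 := g1.monic
    rw [Polynomial.Monic, Polynomial.leadingCoeff, g1.deg] at h1
    exact h1
  have hQ' : ∀ b, (((QA fun i => 1 - α i).coeff b : ℚ) : ℂ) = (-1) ^ (N + 1) * ∑ l ∈ Finset.range (N + 2),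
      ((-1) ^ l * (l.choose b : ℂ) * (((QA α).coeff l : ℚ) : ℂ)) := by
    intro b
    have h1 := co (N + 1) α b
    have h2 : ((QA fun i => 1 - α i).coeff b : ℚ) = (-1) ^ (N + 1) * ∑ l ∈ Finset.range (N + 2),
      ((-1) ^ l * (l.choose b : ℚ) * (QA α).coeff l) := h1
    rw [h2]
    push_cast
    rfl
  exact pair Ac_nil rel1 (rel2 N hQ') (rel3 N hQ) (sol_cG g1) (sol_cG g2) (real_mem_Lens hx hx1)

end Pool.Agent.Q195.HG
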