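import Pool.Agent.Q207.HG.Stm

/-!
# Project HG: the forms invariant under a symplectic or special orthogonal group
-/

set_option autoImplicit false

open Matrix Finset Module

namespace Pool.Agent.Q195.HG

open Q207.HM Q207.HG
open Pool.Agent.Y123.GN (bf ro ro_mul ro_add_left ro_add_right ro_smul_left ro_smul_right sym_bf Clf Spf nv_isom nv nv_exp
  nv_nil det_exp rf rf_mulVec rf_iso rf_det rf_sq)

variable {n : ℕ}

namespace Frm

theorem ext_basis {ι : Type*} (v : Basis ι ℂ (Fin n → ℂ)) {M N : Matrix (Fin n) (Fin n) ℂ} (h : ∀ i, M *ᵥ v i = N *ᵥ v i) :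
    M = N := by
  apply Matrix.toLin'.injective
  refine v.ext fun i => ?_
  rw [toLin'_apply, toLin'_apply]
  exact h i

/-- the matrix of the form commutes with the isometries -/
theorem comm {B C κ : Matrix (Fin n) (Fin n) ℂ} (hdet : B.det ≠ 0) (hB : κᵀ * B * κ = B) (hC : κᵀ * C * κ = C) :
    (B⁻¹ * C) * κ = κ * (B⁻¹ * C) := by
  have hu := Ne.isUnit hdet
  have hB1 : B * B⁻¹ = 1 := mul_nonsing_inv _ hu
  have hB2 : B⁻¹ * B = 1 := nonsing_inv_mul _ hu
  -- `κ⁻¹ = B⁻¹ κᵀ B`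
  have h1 : (B⁻¹ * κᵀ * B) * κ = 1 := by
    calc (B⁻¹ * κᵀ * B) * κ = B⁻¹ * (κᵀ * B * κ) := by simp only [Matrix.mul_assoc]
      _ = 1 := by rw [hB, hB2]
  have h2 : κ * (B⁻¹ * κᵀ * B) = 1 := mul_eq_one_comm.1 h1
  calc (B⁻¹ * C) * κ = (κ * (B⁻¹ * κᵀ * B)) * ((B⁻¹ * C) * κ) := by rw [h2, Matrix.one_mul]
    _ = κ * (B⁻¹ * (κᵀ * ((B * B⁻¹) * C) * κ)) := by simp only [Matrix.mul_assoc]
    _ = κ * (B⁻¹ * C) := by rw [hB1, Matrix.one_mul, hC]

theorem concl {B C : Matrix (Fin n) (Fin n) ℂ} (hdet : B.det ≠ 0) {z : ℂ} (h : B⁻¹ * C = z • (1 : Matrix (Fin n) (Fin n) ℂ)) :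
    C = z • B := by
  have hu := Ne.isUnit hdet
  calc C = B * (B⁻¹ * C) := by rw [← Matrix.mul_assoc, mul_nonsing_inv _ hu, Matrix.one_mul]
    _ = z • B := by rw [h, Matrix.mul_smul, Matrix.mul_one]

/-! ### The symplectic case -/

theorem sp_eig {B M : Matrix (Fin n) (Fin n) ℂ} (hJ : Bᵀ = -B) (hdet : B.det ≠ 0)
    (hM : ∀ κ : Matrix (Fin n) (Fin n) ℂ, κ.det = 1 → κᵀ * B * κ = B → M * κ = κ * M) (v : Fin n → ℂ) :
    ∃ c : ℂ, M *ᵥ v = c • v := by
  by_cases hv : v = 0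
  · exact ⟨0, by rw [hv, mulVec_zero, smul_zero]⟩
  obtain ⟨w, hw⟩ := nd_bf hdet hv
  have h1 := hM (IsNilpotent.exp ((1 : ℂ) • nv B v)) (det_exp (nv_nil hJ v) 1) (nv_isom hJ v 1)
  rw [nv_exp hJ, one_smul, Matrix.mul_add, Matrix.add_mul, Matrix.mul_one, Matrix.one_mul] at h1
  have h2 : M * nv B v = nv B v * M := add_left_cancel h1
  have h3 := congrArg (fun X => X *ᵥ w) h2
  rw [← mulVec_mulVec, ← mulVec_mulVec] at h3
  have e : ∀ x, nv B v *ᵥ x = bf B v x • v := fun x => Q207.HM.ro_mulVec v v x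
  rw [e, e, mulVec_smul] at h3
  have hvw : bf B v w ≠ 0 := by
    rw [skew_bf hJ w v]
    exact neg_ne_zero.2 hw
  refine ⟨(bf B v w)⁻¹ * bf B v (M *ᵥ w), ?_⟩
  rw [mul_smul, ← h3, smul_smul, inv_mul_cancel₀ hvw, one_smul]

theorem scalar_of_eig {M : Matrix (Fin n) (Fin n) ℂ} (hn : 1 ≤ n) (h : ∀ v : Fin n → ℂ, ∃ c : ℂ, M *ᵥ v = c • v) :
    ∃ z : ℂ, M = z • (1 : Matrix (Fin n) (Fin n) ℂ) := by
  choose c hc using h
  set o : Fin n := ⟨0, hn⟩
  refine ⟨c (Pi.single o 1), ext_basis (Pi.basisFun ℂ (Fin n)) fun i => ?_⟩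
  rw [Pi.basisFun_apply, hc, smul_mulVec, one_mulVec]
  by_cases hi : i = o
  · rw [hi]
  have h1 := hc (Pi.single i 1 + Pi.single o 1)
  rw [mulVec_add, hc, hc] at h1
  have h2 := congrFun h1 i
  have h3 := congrFun h1 o
  simp [Pi.single_eq_of_ne hi, Pi.single_eq_of_ne (Ne.symm hi)] at h2 h3
  rw [h2, h3]

/-! ### The orthogonal case -/

theorem so_eig {B M : Matrix (Fin n) (Fin n) ℂ} (hJ : Bᵀ = B)
    (hM : ∀ κ : Matrix (Fin n) (Fin n) ℂ, κ.det = 1 → κᵀ * B * κ = B → M * κ = κ * M) {u w x : Fin n → ℂ}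
    (hu : bf B u u ≠ 0) (hw : bf B w w ≠ 0) (hx : bf B x x ≠ 0) (huw : bf B u w = 0) (hux : bf B u x = 0)
    (hwx : bf B w x = 0) : ∃ c : ℂ, M *ᵥ u = c • u := by
  have hwu : bf B w u = 0 := by rw [sym_bf hJ u w, huw]
  have hxu : bf B x u = 0 := by rw [sym_bf hJ u x, hux]
  have key : ∀ y : Fin n → ℂ, bf B y y ≠ 0 → bf B u y = 0 → bf B y u = 0 →
      ∃ a : ℂ, (2 : ℂ) • (M *ᵥ u) = (2 / bf B y y * bf B y (M *ᵥ u)) • y + (2 / bf B u u * bf B u (M *ᵥ u)) • u := by
    intro y hy huy hyu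
    refine ⟨0, ?_⟩
    have hdet : (rf B u * rf B y).det = 1 := by
      rw [det_mul, rf_det hu, rf_det hy]
      norm_num
    have hiso : (rf B u * rf B y)ᵀ * B * (rf B u * rf B y) = B := by
      calc (rf B u * rf B y)ᵀ * B * (rf B u * rf B y) = (rf B y)ᵀ * ((rf B u)ᵀ * B * rf B u) * rf B y := by
            rw [transpose_mul]
            simp only [Matrix.mul_assoc]
        _ = B := by rw [rf_iso hJ hu, rf_iso hJ hy]
    have h1 := hM _ hdet hiso
    have h2 := congrArg (fun X => X *ᵥ u) h1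
    rw [← mulVec_mulVec, ← mulVec_mulVec, ← mulVec_mulVec, ← mulVec_mulVec, rf_mulVec y u, hyu, mul_zero, zero_smul, sub_zero,
      rf_mulVec u u, div_mul_cancel₀ _ hu, rf_mulVec y (M *ᵥ u), rf_mulVec u (M *ᵥ u - _)] at h2
    have e1 : bf B u (M *ᵥ u - (2 / bf B y y * bf B y (M *ᵥ u)) • y) = bf B u (M *ᵥ u) := by
      rw [sub_eq_add_neg, bf_add_right, ← neg_smul, bf_smul_right, huy, mul_zero, add_zero]
    rw [e1] at h2
    have e2 : u - (2 : ℂ) • u = -u := by module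
    rw [e2, mulVec_neg] at h2
    have e3 : (2 : ℂ) • (M *ᵥ u) = M *ᵥ u - -(M *ᵥ u) := by module
    rw [e3, h2]
    abel
  obtain ⟨-, h1⟩ := key w hw huw hwu
  obtain ⟨-, h2⟩ := key x hx hux hxu
  have h3 : (2 / bf B w w * bf B w (M *ᵥ u)) • w = (2 / bf B x x * bf B x (M *ᵥ u)) • x := by
    rw [h1] at h2
    exact add_right_cancel h2
  have h4 : bf B w ((2 / bf B w w * bf B w (M *ᵥ u)) • w) = 0 := by
    rw [h3, bf_smul_right, hwx, mul_zero]
  rw [bf_smul_right] at h4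
  have h5 : (2 / bf B w w * bf B w (M *ᵥ u)) = 0 := (mul_eq_zero.1 h4).resolve_right hw
  rw [h5, zero_smul, zero_add] at h1
  refine ⟨(1 / 2 : ℂ) * (2 / bf B u u * bf B u (M *ᵥ u)), ?_⟩
  rw [mul_smul, ← h1, smul_smul]
  norm_num

theorem so_scalar {B M : Matrix (Fin n) (Fin n) ℂ} (hn : 3 ≤ n) (hJ : Bᵀ = B) (hdet : B.det ≠ 0)
    (hM : ∀ κ : Matrix (Fin n) (Fin n) ℂ, κ.det = 1 → κᵀ * B * κ = B → M * κ = κ * M) :
    ∃ z : ℂ, M = z • (1 : Matrix (Fin n) (Fin n) ℂ) := by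
  have hsym : ∀ u v, bf B v u = bf B u v := fun u v => sym_bf hJ u v
  -- an orthogonal basis
  set b : LinearMap.BilinForm ℂ (Fin n → ℂ) := Matrix.toLinearMap₂' ℂ B with hb
  have hba : ∀ u v, b u v = bf B u v := by
    intro u v
    rw [hb, Matrix.toLinearMap₂'_apply']
    rfl
  have hbs : LinearMap.IsSymm b := ⟨fun u v => by
    rw [hba, hba]
    exact hsym v u⟩
  obtain ⟨v, hv⟩ := LinearMap.BilinForm.exists_orthogonal_basis (K := ℂ) (B := b) hbs
  have hsep : b.SeparatingLeft := by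
    intro u hu
    by_contra hne
    obtain ⟨w, hw⟩ := nd_bf hdet hne
    have h1 := hu w
    rw [hba, ← hsym] at h1
    exact hw h1
  have vv : ∀ i, bf B (v i) (v i) ≠ 0 := by
    intro i h
    refine hv.not_isOrtho_basis_self_of_separatingLeft hsep i ?_
    rw [hba]
    exact h
  have vo : ∀ i j, i ≠ j → bf B (v i) (v j) = 0 := by
    intro i j hij
    have h1 := hv hij
    have h2 : b (v i) (v j) = 0 := h1
    rwa [hba] at h2
  have hfr : 3 ≤ Module.finrank ℂ (Fin n → ℂ) := by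
    rw [Module.finrank_fin_fun]
    exact hn
  have third : ∀ i j : Fin (Module.finrank ℂ (Fin n → ℂ)), ∃ k, k ≠ i ∧ k ≠ j := by
    intro i j
    by_contra hcon
    push Not at hcon
    have h1 : (Finset.univ : Finset (Fin (Module.finrank ℂ (Fin n → ℂ)))) ⊆ {i, j} := by
      intro k _
      rw [Finset.mem_insert, Finset.mem_singleton]
      by_cases hk : k = i
      · exact Or.inl hk
      · exact Or.inr (hcon k hk)
    have h2 := Finset.card_le_card h1
    rw [Finset.card_univ, Fintype.card_fin] at h2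
    have h3 := Finset.card_le_two (a := i) (b := j)
    omega
  have eig : ∀ i, ∃ c : ℂ, M *ᵥ v i = c • v i := by
    intro i
    obtain ⟨j, hj, -⟩ := third i i
    obtain ⟨k, hk1, hk2⟩ := third i j
    exact so_eig hJ hM (vv i) (vv j) (vv k) (vo _ _ hj.symm) (vo _ _ hk1.symm) (vo _ _ hk2.symm)
  choose c hc using eig
  have heq : ∀ i j, i ≠ j → c i = c j := by
    intro i j hij
    obtain ⟨k, hk1, hk2⟩ := third i j
    obtain ⟨a, ha0, ha⟩ : ∃ a : ℂ, a ≠ 0 ∧ bf B (v i) (v i) + a ^ 2 * bf B (v j) (v j) ≠ 0 := by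
      by_cases h1 : bf B (v i) (v i) + bf B (v j) (v j) = 0
      · refine ⟨2, two_ne_zero, fun h2 => vv j ?_⟩
        linear_combination (1 / 3 : ℂ) * h2 - (1 / 3 : ℂ) * h1
      · exact ⟨1, one_ne_zero, by rw [one_pow, one_mul]; exact h1⟩
    have hji : bf B (v j) (v i) = 0 := vo _ _ hij.symm
    have hij' : bf B (v i) (v j) = 0 := vo _ _ hij
    have hik : bf B (v i) (v k) = 0 := vo _ _ hk1.symm
    have hjk : bf B (v j) (v k) = 0 := vo _ _ hk2.symm
    have u1 : bf B (v i + a • v j) (v i + a • v j) ≠ 0 := by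
      rw [bf_add_left, bf_add_right, bf_add_right, bf_smul_left, bf_smul_left, bf_smul_right, bf_smul_right, hji, hij']
      intro h
      apply ha
      linear_combination h
    have u2 : bf B ((a * bf B (v j) (v j)) • v i + (-bf B (v i) (v i)) • v j)
        ((a * bf B (v j) (v j)) • v i + (-bf B (v i) (v i)) • v j) ≠ 0 := by
      rw [bf_add_left, bf_add_right, bf_add_right, bf_smul_left, bf_smul_left, bf_smul_left, bf_smul_left, bf_smul_right,
        bf_smul_right, bf_smul_right, bf_smul_right, hji, hij']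
      intro h
      have h2 : bf B (v i) (v i) * bf B (v j) (v j) * (bf B (v i) (v i) + a ^ 2 * bf B (v j) (v j)) = 0 := by
        linear_combination h
      exact (mul_ne_zero (mul_ne_zero (vv i) (vv j)) ha) h2
    have u12 : bf B (v i + a • v j) ((a * bf B (v j) (v j)) • v i + (-bf B (v i) (v i)) • v j) = 0 := by
      rw [bf_add_left, bf_add_right, bf_add_right, bf_smul_left, bf_smul_left, bf_smul_right, bf_smul_right,
        bf_smul_right, bf_smul_right, hji, hij']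
      ring
    have u1k : bf B (v i + a • v j) (v k) = 0 := by
      rw [bf_add_left, bf_smul_left, hik, hjk]
      ring
    have u2k : bf B ((a * bf B (v j) (v j)) • v i + (-bf B (v i) (v i)) • v j) (v k) = 0 := by
      rw [bf_add_left, bf_smul_left, bf_smul_left, hik, hjk]
      ring
    obtain ⟨m, hm⟩ := so_eig hJ hM u1 u2 (vv k) u12 u1k u2k
    rw [mulVec_add, mulVec_smul, hc, hc] at hm
    -- pair with `v i` and `v j`
    have p1 := congrArg (fun y => bf B (v i) y) hm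
    have p2 := congrArg (fun y => bf B (v j) y) hm
    rw [bf_add_right, bf_smul_right, bf_smul_right, bf_smul_right, bf_smul_right, bf_add_right, bf_smul_right, hij'] at p1
    rw [bf_add_right, bf_smul_right, bf_smul_right, bf_smul_right, bf_smul_right, bf_add_right, bf_smul_right, hji] at p2
    have q1 : (c i - m) * bf B (v i) (v i) = 0 := by linear_combination p1
    have q2 : (c j - m) * (a * bf B (v j) (v j)) = 0 := by linear_combination p2
    have r1 := (mul_eq_zero.1 q1).resolve_right (vv i)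
    have r2 := (mul_eq_zero.1 q2).resolve_right (mul_ne_zero ha0 (vv j))
    linear_combination r1 - r2
  set o : Fin (Module.finrank ℂ (Fin n → ℂ)) := ⟨0, by omega⟩
  refine ⟨c o, ext_basis v fun i => ?_⟩
  rw [hc, smul_mulVec, one_mulVec]
  by_cases hi : i = o
  · rw [hi]
  · rw [heq i o hi]

end Frm

open Frm in
theorem form : S_Form := by
  intro n B C hn hC hu hinv
  have hdet := ((Matrix.isUnit_iff_isUnit_det _).1 hu).ne_zero
  have hcomm : ∀ κ : Matrix (Fin n) (Fin n) ℂ, κ.det = 1 → κᵀ * B * κ = B → (B⁻¹ * C) * κ = κ * (B⁻¹ * C) :=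
    fun κ h1 h2 => comm hdet h2 (hinv κ h1 h2)
  rcases hC with rfl | ⟨h1, h2⟩ | ⟨h1, h2, h3⟩
  · exfalso
    apply hdet
    haveI : Nonempty (Fin n) := ⟨⟨0, by omega⟩⟩
    exact Matrix.det_zero
  · obtain ⟨z, hz⟩ := scalar_of_eig (by omega) (sp_eig h2 hdet hcomm)
    exact ⟨z, concl hdet hz⟩
  · obtain ⟨z, hz⟩ := so_scalar (by omega) h2 hdet hcomm
    exact ⟨z, concl hdet hz⟩

end Pool.Agent.Q195.HG
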