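import Pool.Agent.Q207.HG.Stm

/-!
# Project HG: the classical Lie algebras are perfect, ideals generated by regular elements
-/

set_option autoImplicit false

open Matrix Finset

namespace Pool.Agent.Q195.HG

open Q207.HM Q207.HG
open Pool.Agent.Y123.GN (bf ro ro_mul ro_add_left ro_add_right ro_smul_left ro_smul_right sym_bf nv_span Clf Spf nv_isom nv)

variable {n : ℕ}

/-! ### The three algebras -/

theorem hB_br {B X Y : Matrix (Fin n) (Fin n) ℂ} (hX : X ∈ hB B) (hY : Y ∈ hB B) : X * Y - Y * X ∈ hB B := by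
  obtain ⟨h1, h2⟩ := hX
  obtain ⟨h3, h4⟩ := hY
  refine ⟨by rw [Matrix.trace_sub, Matrix.trace_mul_comm, sub_self], ?_⟩
  have e2 : Xᵀ * B = -(B * X) := eq_neg_of_add_eq_zero_left h2
  have e4 : Yᵀ * B = -(B * Y) := eq_neg_of_add_eq_zero_left h4
  rw [transpose_sub, transpose_mul, transpose_mul, Matrix.sub_mul, Matrix.mul_assoc, e2, Matrix.mul_assoc, e4,
    Matrix.mul_neg, Matrix.mul_neg, ← Matrix.mul_assoc, ← Matrix.mul_assoc, e2, e4]
  noncomm_ring

theorem hL_le : hL n ≤ hB (0 : Matrix (Fin n) (Fin n) ℂ) := by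
  refine Submodule.span_le.2 ?_
  rintro _ ⟨a, b, hab, rfl⟩
  refine ⟨?_, by simp⟩
  rw [trace_vecMulVec, dotProduct_comm]
  exact hab

theorem hL_single {i j : Fin n} (hij : i ≠ j) : Matrix.single i j (1 : ℂ) ∈ hL n := by
  refine Submodule.subset_span ⟨Pi.single i 1, Pi.single j 1, ?_, ?_⟩
  · rw [single_dotProduct, one_mul, Pi.single_eq_of_ne hij.symm]
  · rw [Matrix.single_eq_single_vecMulVec_single]

theorem hL_diag (i j : Fin n) : Matrix.single i i (1 : ℂ) - Matrix.single j j 1 ∈ hL n := by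
  by_cases hij : i = j
  · rw [hij, sub_self]
    exact Submodule.zero_mem _
  have h1 : vecMulVec (Pi.single i (1 : ℂ) + Pi.single j 1) (Pi.single i 1 - Pi.single j 1) ∈ hL n := by
    refine Submodule.subset_span ⟨_, _, ?_, rfl⟩
    rw [sub_dotProduct, dotProduct_add, dotProduct_add, single_dotProduct, single_dotProduct, single_dotProduct,
      single_dotProduct, Pi.single_eq_same, Pi.single_eq_same, Pi.single_eq_of_ne hij, Pi.single_eq_of_ne (Ne.symm hij)]
    ring
  have h2 := hL_single hij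
  have h3 := hL_single (Ne.symm hij)
  have e : Matrix.single i i (1 : ℂ) - Matrix.single j j 1 =
      vecMulVec (Pi.single i (1 : ℂ) + Pi.single j 1) (Pi.single i 1 - Pi.single j 1) + Matrix.single i j 1 -
        Matrix.single j i 1 := by
    rw [add_vecMulVec, vecMulVec_sub, vecMulVec_sub, ← Matrix.single_eq_single_vecMulVec_single,
      ← Matrix.single_eq_single_vecMulVec_single, ← Matrix.single_eq_single_vecMulVec_single,
      ← Matrix.single_eq_single_vecMulVec_single]
    abel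
  rw [e]
  exact Submodule.sub_mem _ (Submodule.add_mem _ h1 h2) h3

theorem le_hL (hn : 1 ≤ n) {X : Matrix (Fin n) (Fin n) ℂ} (hX : X.trace = 0) : X ∈ hL n := by
  set o : Fin n := ⟨0, hn⟩
  have e : X = ∑ i, ∑ j, (X i j) • (Matrix.single i j (1 : ℂ) - if i = j then Matrix.single o o 1 else 0) := by
    have e1 : X = ∑ i, ∑ j, (X i j) • Matrix.single i j (1 : ℂ) := by
      conv_lhs => rw [Matrix.matrix_eq_sum_single X]
      refine Finset.sum_congr rfl fun i _ => Finset.sum_congr rfl fun j _ => ?_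
      rw [Matrix.smul_single, smul_eq_mul, mul_one]
    have e2 : ∑ i, ∑ j, (X i j) • (if i = j then Matrix.single o o (1 : ℂ) else 0) = 0 := by
      have e3 : ∀ i, ∑ j, (X i j) • (if i = j then Matrix.single o o (1 : ℂ) else 0) = X i i • Matrix.single o o 1 := by
        intro i
        rw [Finset.sum_eq_single i]
        · rw [if_pos rfl]
        · intro j _ hj
          rw [if_neg (Ne.symm hj), smul_zero]
        · intro h
          exact absurd (Finset.mem_univ _) h
      rw [Finset.sum_congr rfl fun i _ => e3 i, ← Finset.sum_smul]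
      have : ∑ i, X i i = 0 := hX
      rw [this, zero_smul]
    conv_lhs => rw [e1]
    simp only [smul_sub, Finset.sum_sub_distrib]
    rw [e2, sub_zero]
  rw [e]
  refine Submodule.sum_mem _ fun i _ => Submodule.sum_mem _ fun j _ => Submodule.smul_mem _ _ ?_
  by_cases hij : i = j
  · subst hij
    rw [if_pos rfl]
    exact hL_diag _ _
  · rw [if_neg hij, sub_zero]
    exact hL_single hij

theorem hB_zero (hn : 1 ≤ n) : hB (0 : Matrix (Fin n) (Fin n) ℂ) = hL n :=
  le_antisymm (fun _ hX => le_hL hn hX.1) hL_le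

theorem hB_sp {B : Matrix (Fin n) (Fin n) ℂ} (hJ : Bᵀ = -B) (hdet : B.det ≠ 0) : hB B = hS B := by
  refine le_antisymm ?_ ?_
  · intro X hX
    have h1 := nv_span hJ hdet hX.2
    refine Submodule.span_mono ?_ h1
    rintro _ ⟨v, rfl⟩
    exact ⟨v, rfl⟩
  · refine Submodule.span_le.2 ?_
    rintro _ ⟨v, rfl⟩
    refine ⟨?_, ?_⟩
    · unfold ro
      rw [trace_vecMulVec, dotProduct_comm, ← dotProduct_mulVec]
      exact Pool.Agent.Y123.GN.form_self hJ v
    · unfold ro
      rw [transpose_vecMulVec, vecMulVec_mul, mul_vecMulVec]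
      have h2 : v ᵥ* B = -(B *ᵥ v) := by
        rw [← mulVec_transpose, hJ, neg_mulVec]
      rw [h2, neg_vecMulVec, vecMulVec_neg, neg_add_cancel]

theorem hB_so {B : Matrix (Fin n) (Fin n) ℂ} (hJ : Bᵀ = B) (hdet : B.det ≠ 0) : hB B = hO B := by
  have hu := Ne.isUnit hdet
  refine le_antisymm ?_ ?_
  · intro X hX
    set S := X * B⁻¹ with hS
    have hXS : X = S * B := by
      rw [hS, Matrix.mul_assoc, nonsing_inv_mul _ hu, Matrix.mul_one]
    have hJT : (B⁻¹)ᵀ = B⁻¹ := by
      rw [transpose_nonsing_inv, hJ]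
    have hskew : Sᵀ = -S := by
      rw [hS, transpose_mul, hJT]
      have h1 : Xᵀ * B = -(B * X) := eq_neg_of_add_eq_zero_left hX.2
      have h2 : Xᵀ = -(B * X * B⁻¹) := by
        calc Xᵀ = Xᵀ * B * B⁻¹ := by rw [Matrix.mul_assoc, mul_nonsing_inv _ hu, Matrix.mul_one]
          _ = -(B * X * B⁻¹) := by rw [h1, Matrix.neg_mul]
      rw [h2, Matrix.mul_neg, ← Matrix.mul_assoc, ← Matrix.mul_assoc, nonsing_inv_mul _ hu, Matrix.one_mul]
    have h3 : S = ∑ i, ∑ k, (S i k / 2) • (Matrix.single i k (1 : ℂ) - Matrix.single k i 1) := by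
      ext a b
      simp only [Matrix.sum_apply, Matrix.smul_apply, Matrix.sub_apply, smul_eq_mul, Matrix.single_apply]
      simp only [mul_sub, Finset.sum_sub_distrib, mul_ite, mul_one, mul_zero]
      have e1 : ∑ x, ∑ x_1, (if x = a ∧ x_1 = b then S x x_1 / 2 else 0) = S a b / 2 := by
        rw [Finset.sum_eq_single a]
        · rw [Finset.sum_eq_single b]
          · simp
          · intro y _ hy; simp [hy]
          · intro h; exact absurd (Finset.mem_univ _) h
        · intro x _ hx; simp [hx]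
        · intro h; exact absurd (Finset.mem_univ _) h
      have e2 : ∑ x, ∑ x_1, (if x_1 = a ∧ x = b then S x x_1 / 2 else 0) = S b a / 2 := by
        rw [Finset.sum_eq_single b]
        · rw [Finset.sum_eq_single a]
          · simp
          · intro y _ hy; simp [hy]
          · intro h; exact absurd (Finset.mem_univ _) h
        · intro x _ hx; simp [hx]
        · intro h; exact absurd (Finset.mem_univ _) h
      rw [e1, e2]
      have h4 : S b a = -S a b := by
        have := congrFun (congrFun hskew a) b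
        rw [transpose_apply] at this
        exact this
      rw [h4]
      ring
    have hsum : X = ∑ i, ∑ k, (S i k / 2) • WW B (Pi.single i 1) (Pi.single k 1) := by
      conv_lhs => rw [hXS, h3, Matrix.sum_mul]
      refine Finset.sum_congr rfl fun i _ => ?_
      rw [Matrix.sum_mul]
      refine Finset.sum_congr rfl fun k _ => ?_
      rw [Matrix.smul_mul, Matrix.sub_mul, Matrix.single_eq_single_vecMulVec_single,
        Matrix.single_eq_single_vecMulVec_single, vecMulVec_mul, vecMulVec_mul]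
      rfl
    rw [hsum]
    exact Submodule.sum_mem _ fun i _ => Submodule.sum_mem _ fun k _ => Submodule.smul_mem _ _
      (Submodule.subset_span ⟨_, _, rfl⟩)
  · refine Submodule.span_le.2 ?_
    rintro _ ⟨a, b, rfl⟩
    refine ⟨?_, WW_isom hJ a b⟩
    unfold WW ro
    rw [trace_sub, trace_vecMulVec, trace_vecMulVec, dotProduct_comm a, dotProduct_comm b, ← dotProduct_mulVec,
      ← dotProduct_mulVec]
    have := sym_bf hJ a b
    unfold bf at this
    rw [this, sub_self]

/-! ### Perfect algebras -/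

theorem perf_of {B : Matrix (Fin n) (Fin n) ℂ} {good : Set (Matrix (Fin n) (Fin n) ℂ)} (h : Smp (hB B) good) :
    hB B ≤ Submodule.span ℂ {Z | ∃ X ∈ hB B, ∃ Y ∈ hB B, Z = X * Y - Y * X} := by
  have hle : Submodule.span ℂ {Z | ∃ X ∈ hB B, ∃ Y ∈ hB B, Z = X * Y - Y * X} ≤ hB B := by
    refine Submodule.span_le.2 ?_
    rintro _ ⟨X, hX, Y, hY, rfl⟩
    exact hB_br hX hY
  refine h.ideal _ (fun X hX Y hY => Submodule.subset_span ⟨X, hX, Y, hle hY, rfl⟩) ?_
  obtain ⟨x, hx, y, hy, hg⟩ := h.brk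
  exact ⟨_, hg, Submodule.subset_span ⟨x, hx, y, hy, rfl⟩⟩

theorem ex_unit {B : Matrix (Fin n) (Fin n) ℂ} (hJ : Bᵀ = B) (hdet : B.det ≠ 0) (hn : 1 ≤ n) : ∃ u, bf B u u ≠ 0 := by
  have hv : (Pi.single ⟨0, hn⟩ 1 : Fin n → ℂ) ≠ 0 := by
    intro h0
    have := congrFun h0 ⟨0, hn⟩
    rw [Pi.single_eq_same] at this
    exact one_ne_zero this
  obtain ⟨w, hw⟩ := nd_bf hdet hv
  set v : Fin n → ℂ := Pi.single ⟨0, hn⟩ 1
  by_contra hcon
  push Not at hcon
  have h1 := hcon (w + v)
  rw [bf_add_left, bf_add_right, bf_add_right, hcon w, hcon v, sym_bf hJ w v] at h1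
  apply hw
  linear_combination (1 / 2 : ℂ) * h1

theorem perf : S_Perf := by
  intro n B hn hC
  rcases hC with rfl | ⟨h1, h2⟩ | ⟨h1, h2, h3⟩
  · have h := smpL hn
    rw [← hB_zero (by omega)] at h
    exact perf_of h
  · have hdet := ((Matrix.isUnit_iff_isUnit_det _).1 h1).ne_zero
    have h := smpS h2 hdet (by omega : 1 ≤ n)
    rw [← hB_sp h2 hdet] at h
    exact perf_of h
  · have hdet := ((Matrix.isUnit_iff_isUnit_det _).1 h1).ne_zero
    obtain ⟨u, hu⟩ := ex_unit h2 hdet (by omega : 1 ≤ n)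
    have h := smpO h2 hdet (by omega : 3 ≤ n) hu
    rw [← hB_so h2 hdet] at h
    exact perf_of h

/-! ### Eigenvectors -/

theorem ev_root {y : Matrix (Fin n) (Fin n) ℂ}
    (hy : y.charpoly = ∏ a : Fin n, (Polynomial.X - Polynomial.C (((n : ℂ) - 1) - 2 * ((a : ℕ) : ℂ)))) (a : Fin n) :
    (Matrix.scalar (Fin n) (((n : ℂ) - 1) - 2 * ((a : ℕ) : ℂ)) - y).det = 0 := by
  rw [← Matrix.eval_charpoly, hy, Polynomial.eval_prod]
  refine Finset.prod_eq_zero (Finset.mem_univ a) ?_
  simp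

theorem ev_col {y : Matrix (Fin n) (Fin n) ℂ}
    (hy : y.charpoly = ∏ a : Fin n, (Polynomial.X - Polynomial.C (((n : ℂ) - 1) - 2 * ((a : ℕ) : ℂ)))) (a : Fin n) :
    ∃ v : Fin n → ℂ, v ≠ 0 ∧ y *ᵥ v = (((n : ℂ) - 1) - 2 * ((a : ℕ) : ℂ)) • v := by
  obtain ⟨v, hv, h⟩ := Matrix.exists_mulVec_eq_zero_iff.2 (ev_root hy a)
  refine ⟨v, hv, ?_⟩
  rw [Matrix.sub_mulVec, sub_eq_zero] at h
  rw [← h, Matrix.scalar_apply]
  funext i
  rw [Matrix.mulVec_diagonal]
  simp

theorem ev_row {y : Matrix (Fin n) (Fin n) ℂ}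
    (hy : y.charpoly = ∏ a : Fin n, (Polynomial.X - Polynomial.C (((n : ℂ) - 1) - 2 * ((a : ℕ) : ℂ)))) (a : Fin n) :
    ∃ v : Fin n → ℂ, v ≠ 0 ∧ v ᵥ* y = (((n : ℂ) - 1) - 2 * ((a : ℕ) : ℂ)) • v := by
  obtain ⟨v, hv, h⟩ := Matrix.exists_vecMul_eq_zero_iff.2 (ev_root hy a)
  refine ⟨v, hv, ?_⟩
  rw [Matrix.vecMul_sub, sub_eq_zero] at h
  rw [← h, Matrix.scalar_apply]
  funext i
  rw [Matrix.vecMul_diagonal]
  simp [mul_comm]

theorem ev_top {y : Matrix (Fin n) (Fin n) ℂ} {v : Fin n → Fin n → ℂ} (hv : ∀ a, v a ≠ 0)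
    (h : ∀ a, y *ᵥ v a = (((n : ℂ) - 1) - 2 * ((a : ℕ) : ℂ)) • v a) : Submodule.span ℂ (Set.range v) = ⊤ := by
  have hinj : Function.Injective (fun a : Fin n => (((n : ℂ) - 1) - 2 * ((a : ℕ) : ℂ))) := by
    intro a b hab
    have h1 : (((a : ℕ) : ℂ)) = ((b : ℕ) : ℂ) := by
      simp only at hab
      linear_combination (-1 / 2 : ℂ) * hab
    exact Fin.ext (by exact_mod_cast h1)
  have hli : LinearIndependent ℂ v := by
    refine Module.End.eigenvectors_linearIndependent' (Matrix.toLin' y)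
      (fun a : Fin n => (((n : ℂ) - 1) - 2 * ((a : ℕ) : ℂ))) hinj v fun a => ?_
    refine ⟨?_, hv a⟩
    rw [Module.End.mem_eigenspace_iff, Matrix.toLin'_apply]
    exact h a
  exact hli.span_eq_top_of_card_eq_finrank' (by simp)

theorem good : S_Good := by
  intro n B y hn hC hodd hyB hy I hI hIy
  rcases hC with rfl | ⟨h1, h2⟩ | ⟨h1, h2, h3⟩
  · rw [hB_zero (by omega)] at hI hIy ⊢
    obtain ⟨v, hv0, hv⟩ := ev_col hy ⟨0, by omega⟩
    obtain ⟨w, hw0, hw⟩ := ev_row hy ⟨n - 1, by omega⟩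
    have hlam : (((n : ℂ) - 1) - 2 * (((⟨0, by omega⟩ : Fin n) : ℕ) : ℂ)) = (n : ℂ) - 1 := by simp
    have hmu : (((n : ℂ) - 1) - 2 * (((⟨n - 1, by omega⟩ : Fin n) : ℕ) : ℂ)) = 1 - (n : ℂ) := by
      have : (((n - 1 : ℕ) : ℕ) : ℂ) = (n : ℂ) - 1 := by
        rw [Nat.cast_sub (by omega), Nat.cast_one]
      simp only
      rw [this]
      ring
    rw [hlam] at hv
    rw [hmu] at hw
    have hne : (n : ℂ) - 1 ≠ 0 := by
      intro h0
      have h5 : (n : ℂ) = ((1 : ℕ) : ℂ) := by
        rw [Nat.cast_one]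
        linear_combination h0
      have : n = 1 := by exact_mod_cast h5
      omega
    have hwv : w ⬝ᵥ v = 0 := by
      have e1 : w ⬝ᵥ (y *ᵥ v) = (w ᵥ* y) ⬝ᵥ v := dotProduct_mulVec _ _ _
      rw [hv, hw, dotProduct_smul, smul_dotProduct, smul_eq_mul, smul_eq_mul] at e1
      have e2 : (2 * ((n : ℂ) - 1)) * (w ⬝ᵥ v) = 0 := by linear_combination e1
      exact (mul_eq_zero.1 e2).resolve_left (mul_ne_zero two_ne_zero hne)
    have hN : vecMulVec v w ∈ hL n := Submodule.subset_span ⟨v, w, hwv, rfl⟩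
    have hbr := hIy _ hN
    have e3 : vecMulVec v w * y - y * vecMulVec v w = (-2 * ((n : ℂ) - 1)) • vecMulVec v w := by
      rw [vecMulVec_mul, mul_vecMulVec, hv, hw, vecMulVec_smul, smul_vecMulVec]
      module
    rw [e3] at hbr
    have hc : (-2 * ((n : ℂ) - 1)) ≠ 0 := mul_ne_zero (by norm_num) hne
    have hmem := I.smul_mem (-2 * ((n : ℂ) - 1))⁻¹ hbr
    rw [smul_smul, inv_mul_cancel₀ hc, one_smul] at hmem
    exact (smpL hn).ideal I hI ⟨_, ⟨v, w, hwv, hv0, hw0, rfl⟩, hmem⟩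
  · have hdet := ((Matrix.isUnit_iff_isUnit_det _).1 h1).ne_zero
    have hyB2 := hyB.2
    rw [hB_sp h2 hdet] at hI hIy ⊢
    obtain ⟨v, hv0, hv⟩ := ev_col hy ⟨0, by omega⟩
    have hlam : (((n : ℂ) - 1) - 2 * (((⟨0, by omega⟩ : Fin n) : ℕ) : ℂ)) = (n : ℂ) - 1 := by simp
    rw [hlam] at hv
    have hne : (n : ℂ) - 1 ≠ 0 := by
      intro h0
      have h5 : (n : ℂ) = ((1 : ℕ) : ℂ) := by
        rw [Nat.cast_one]
        linear_combination h0
      have : n = 1 := by exact_mod_cast h5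
      omega
    have hN : ro B v v ∈ hS B := Submodule.subset_span ⟨v, rfl⟩
    have hbr := hIy _ hN
    have e3 : ro B v v * y - y * ro B v v = (-2 * ((n : ℂ) - 1)) • ro B v v := by
      rw [ro_N hyB2, N_ro, hv, ro_smul_left, ro_smul_right]
      module
    rw [e3] at hbr
    have hc : (-2 * ((n : ℂ) - 1)) ≠ 0 := mul_ne_zero (by norm_num) hne
    have hmem := I.smul_mem (-2 * ((n : ℂ) - 1))⁻¹ hbr
    rw [smul_smul, inv_mul_cancel₀ hc, one_smul] at hmem
    exact (smpS h2 hdet (by omega)).ideal I hI ⟨_, ⟨v, 1, hv0, one_ne_zero, by rw [one_smul]⟩, hmem⟩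
  · have hdet := ((Matrix.isUnit_iff_isUnit_det _).1 h1).ne_zero
    obtain ⟨m, hm⟩ := hodd h1 h2
    have hyB2 := hyB.2
    rw [hB_so h2 hdet] at hI hIy ⊢
    choose v hv0 hv using ev_col hy
    have htop := ev_top hv0 hv
    set o : Fin n := ⟨m, by omega⟩ with ho
    set z : Fin n := ⟨0, by omega⟩ with hz
    have hlam : (((n : ℂ) - 1) - 2 * ((z : ℕ) : ℂ)) = (n : ℂ) - 1 := by simp [hz]
    have hnm : (n : ℂ) = 2 * (m : ℂ) + 1 := by
      have h9 := congrArg (Nat.cast : ℕ → ℂ) hm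
      push_cast at h9
      exact h9
    have hlo : (((n : ℂ) - 1) - 2 * ((o : ℕ) : ℂ)) = 0 := by
      show (((n : ℂ) - 1) - 2 * ((m : ℕ) : ℂ)) = 0
      rw [hnm]
      ring
    have hyo : y *ᵥ v o = 0 := by rw [hv o, hlo, zero_smul]
    have hyz : y *ᵥ v z = ((n : ℂ) - 1) • v z := by rw [hv z, hlam]
    have hne : (n : ℂ) - 1 ≠ 0 := by
      intro h0
      have h5 : (n : ℂ) = ((1 : ℕ) : ℂ) := by
        rw [Nat.cast_one]
        linear_combination h0
      have : n = 1 := by exact_mod_cast h5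
      omega
    -- invariance of the form
    have inv : ∀ x, bf B (v o) (y *ᵥ x) = 0 := by
      intro x
      have e1 : B * y = -(yᵀ * B) := eq_neg_of_add_eq_zero_right hyB2
      unfold bf
      rw [mulVec_mulVec, e1, neg_mulVec, ← mulVec_mulVec, dotProduct_neg, dotProduct_mulVec, vecMul_transpose, hyo,
        zero_dotProduct, neg_zero]
    have orth : ∀ a, a ≠ o → bf B (v o) (v a) = 0 := by
      intro a ha
      have e1 := inv (v a)
      rw [hv a, bf_smul_right] at e1
      refine (mul_eq_zero.1 e1).resolve_left ?_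
      intro h0
      apply ha
      apply Fin.ext
      have e2 : (((a : ℕ) : ℂ)) = ((m : ℕ) : ℂ) := by
        rw [hnm] at h0
        linear_combination (-1 / 2 : ℂ) * h0
      have e3 : (a : ℕ) = m := by exact_mod_cast e2
      rw [e3]
    have huu : bf B (v o) (v o) ≠ 0 := by
      intro h0
      have hall : ∀ a, bf B (v o) (v a) = 0 := by
        intro a
        by_cases ha : a = o
        · rw [ha]
          exact h0
        · exact orth a ha
      have hfun : ∀ x, bf B (v o) x = 0 := by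
        intro x
        have hx : x ∈ Submodule.span ℂ (Set.range v) := by
          rw [htop]
          exact Submodule.mem_top
        induction hx using Submodule.span_induction with
        | mem x hx =>
          obtain ⟨a, rfl⟩ := hx
          exact hall a
        | zero =>
          unfold bf
          rw [mulVec_zero, dotProduct_zero]
        | add x y _ _ hx hy => rw [bf_add_right, hx, hy, add_zero]
        | smul c x _ hx => rw [bf_smul_right, hx, mul_zero]
      obtain ⟨w, hw⟩ := nd_bf hdet (hv0 o)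
      apply hw
      rw [sym_bf h2 (v o) w]
      exact hfun w
    have hzo : z ≠ o := by
      intro h0
      have := congrArg Fin.val h0
      simp only [hz, ho] at this
      omega
    have hux := orth z hzo
    have hN : WW B (v o) (v z) ∈ hO B := Submodule.subset_span ⟨_, _, rfl⟩
    have hbr := hIy _ hN
    have e3 : WW B (v o) (v z) * y - y * WW B (v o) (v z) = (-((n : ℂ) - 1)) • WW B (v o) (v z) := by
      have e4 := ad_WW hyB2 (v o) (v z)
      rw [hyo, hyz, WW_zero_left, zero_add, WW_smul_right] at e4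
      rw [neg_smul, ← e4]
      abel
    rw [e3] at hbr
    have hc : (-((n : ℂ) - 1)) ≠ 0 := neg_ne_zero.2 hne
    have hmem := I.smul_mem (-((n : ℂ) - 1))⁻¹ hbr
    rw [smul_smul, inv_mul_cancel₀ hc, one_smul] at hmem
    exact (smpO h2 hdet (by omega) huu).ideal I hI ⟨_, ⟨v z, hv0 z, hux, rfl⟩, hmem⟩

end Pool.Agent.Q195.HG
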